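import Pool.Agent.W169.AF.Stm

set_option autoImplicit false

/-!
# Part C1 of project AF: few characters are bad
-/

namespace Pool.Agent.W567.AF

open Finset Filter Topology MeasureTheory
open Pool.Agent.H24R2.DZ (NN bb mo cc yy ra)
open Pool.Agent.W169.AF

theorem FS_sigma (Q : ℕ) (f : (q : ℕ) → DirichletCharacter ℂ q → ℝ) :
    FS Q f = ∑ p ∈ (Icc 2 Q).sigma PC, f p.1 p.2 := by
  unfold FS
  rw [Finset.sum_sigma]

open Classical in
/-- Markov's inequality for a finite sum of double integrals. -/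
theorem markov_fin {ι : Type*} (s : Finset ι) (G : ι → ℝ → ℝ → ℝ)
    (hG : ∀ i ∈ s, Continuous fun p : ℝ × ℝ => G i p.1 p.2)
    (hG0 : ∀ i ∈ s, ∀ x y, 0 ≤ G i x y)
    (x1 x2 R M lam : ℝ) (hx : x1 ≤ x2) (hR : 0 ≤ R) (hl : 0 < lam)
    (h : ∀ x ∈ Set.Icc x1 x2, ∀ y ∈ Set.Icc (-R) R, ∑ i ∈ s, G i x y ≤ M) :
    ∑ i ∈ s, (if lam < ∫ x in x1..x2, ∫ y in (-R)..R, G i x y then (1 : ℝ) else 0) ≤
      (x2 - x1) * (2 * R) * M / lam := by
  have hRR : -R ≤ R := by linarith
  have hc1 : ∀ i ∈ s, Continuous fun x : ℝ => ∫ y in (-R)..R, G i x y := fun i hi =>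
    intervalIntegral.continuous_parametric_intervalIntegral_of_continuous' (hG i hi) _ _
  have hc2 : ∀ i ∈ s, ∀ x : ℝ, Continuous fun y : ℝ => G i x y := fun i hi x =>
    (hG i hi).comp (by fun_prop : Continuous fun y : ℝ => (x, y))
  have hn : ∀ i ∈ s, 0 ≤ ∫ x in x1..x2, ∫ y in (-R)..R, G i x y := fun i hi =>
    intervalIntegral.integral_nonneg hx fun x _ =>
      intervalIntegral.integral_nonneg hRR fun y _ => hG0 i hi x y
  have h1 : ∑ i ∈ s, (if lam < ∫ x in x1..x2, ∫ y in (-R)..R, G i x y then (1 : ℝ) else 0) ≤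
      ∑ i ∈ s, (∫ x in x1..x2, ∫ y in (-R)..R, G i x y) / lam := by
    refine Finset.sum_le_sum fun i hi => ?_
    split_ifs with hlt
    · rw [one_le_div hl]; exact hlt.le
    · exact div_nonneg (hn i hi) hl.le
  refine h1.trans ?_
  rw [← Finset.sum_div]
  apply div_le_div_of_nonneg_right _ hl.le
  have h2 : ∑ i ∈ s, (∫ x in x1..x2, ∫ y in (-R)..R, G i x y) =
      ∫ x in x1..x2, ∫ y in (-R)..R, ∑ i ∈ s, G i x y := by
    rw [← intervalIntegral.integral_finsetSum (fun i hi => (hc1 i hi).intervalIntegrable _ _)]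
    congr 1; funext x
    rw [intervalIntegral.integral_finsetSum (fun i hi => (hc2 i hi x).intervalIntegrable _ _)]
  rw [h2]
  have hcs : Continuous fun p : ℝ × ℝ => ∑ i ∈ s, G i p.1 p.2 := continuous_finsetSum s hG
  calc ∫ x in x1..x2, ∫ y in (-R)..R, ∑ i ∈ s, G i x y
      ≤ ∫ x in x1..x2, ∫ y in (-R)..R, M := by
        apply intervalIntegral.integral_mono_on hx
        · exact (intervalIntegral.continuous_parametric_intervalIntegral_of_continuous'
            (f := fun x y => ∑ i ∈ s, G i x y) hcs _ _).intervalIntegrable _ _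
        · exact (continuous_const).intervalIntegrable _ _
        · intro x hx'
          apply intervalIntegral.integral_mono_on hRR
          · exact (hcs.comp (by fun_prop : Continuous fun y : ℝ => (x, y))).intervalIntegrable _ _
          · exact (continuous_const).intervalIntegrable _ _
          · intro y hy
            exact h x hx' y hy
    _ = (x2 - x1) * (2 * R) * M := by
        rw [intervalIntegral.integral_const, intervalIntegral.integral_const, smul_eq_mul, smul_eq_mul]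
        ring

theorem cont_MX (θ : ℝ) (Q q : ℕ) (χ : DirichletCharacter ℂ q) : Continuous (MX θ Q q χ) := by
  unfold MX
  refine continuous_finsetSum _ fun h hh => continuous_const.mul ?_
  have h0 : (h : ℂ) ≠ 0 := by
    have := (Finset.mem_Icc.mp hh).1
    exact_mod_cast (by omega : h ≠ 0)
  have : (fun s : ℂ => (h : ℂ) ^ (-s)) = fun s => Complex.exp (Complex.log h * (-s)) := by
    funext s; rw [Complex.cpow_def_of_ne_zero h0]
  rw [this]
  fun_prop

theorem est1 (η θ c C1 W r a : ℝ) (hη : 0 < η) (hC1 : 0 < C1) (hW : 0 < W) (hr0 : 0 < r)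
    (ha : 0 < a) (hc : c ≤ θ / 2000) :
    (30 * r - r / 4000) * (2 * (30 * r)) * (C1 * W * Real.exp (-(θ * a / 2000))) /
      (η * r ^ 2) ≤ 1800 * C1 / η * W * Real.exp (-(c * a)) := by
  rw [div_le_iff₀ (by positivity)]
  have h1 : (30 * r - r / 4000) * (2 * (30 * r)) ≤ 1800 * r ^ 2 := by nlinarith [sq_nonneg r]
  have h2 : Real.exp (-(θ * a / 2000)) ≤ Real.exp (-(c * a)) := by
    apply Real.exp_le_exp.mpr
    have : c * a ≤ θ / 2000 * a := by gcongr
    linarith
  calc (30 * r - r / 4000) * (2 * (30 * r)) * (C1 * W * Real.exp (-(θ * a / 2000)))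
      ≤ (1800 * r ^ 2) * (C1 * W * Real.exp (-(c * a))) := by gcongr
    _ = 1800 * C1 / η * W * Real.exp (-(c * a)) * (η * r ^ 2) := by
        field_simp

theorem est2 (ε θ c C2 W r a : ℝ) (hε : 0 < ε) (hθ2 : θ ≤ ε / 1000) (hC2 : 0 < C2) (hW : 0 < W)
    (hr0 : 0 < r) (ha : 0 < a) (hc : c ≤ ε / 2) :
    (30 * r - 0) * (2 * (30 * r)) *
      (C2 * W * (1 + 120 * a) ^ 20 * Real.exp (240 * θ * a)) /
      (Real.exp (ε * a) * r ^ 2) ≤ 1800 * C2 * (1 + 9600 / ε) ^ 20 * W * Real.exp (-(c * a)) := by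
  set K := (1 + 9600 / ε) ^ 20 with hK
  have hK0 : 0 < K := by positivity
  rw [div_le_iff₀ (by positivity)]
  have h1 : (1 + 120 * a) ^ 20 ≤ K * Real.exp (ε * a / 4) := by
    have h3 : 1 + 120 * a ≤ (1 + 9600 / ε) * Real.exp (ε * a / 80) := by
      have h4 : 1 + ε * a / 80 ≤ Real.exp (ε * a / 80) := by
        linarith [Real.add_one_le_exp (ε * a / 80)]
      have h5 : 120 * a = 9600 / ε * (ε * a / 80) := by field_simp; ring
      have h6 : 0 ≤ ε * a / 80 := by positivity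
      have h7 : 0 < 9600 / ε := by positivity
      calc 1 + 120 * a = 1 + 9600 / ε * (ε * a / 80) := by rw [← h5]
        _ ≤ (1 + 9600 / ε) * (1 + ε * a / 80) := by nlinarith
        _ ≤ _ := by gcongr
    calc (1 + 120 * a) ^ 20 ≤ ((1 + 9600 / ε) * Real.exp (ε * a / 80)) ^ 20 := by gcongr
      _ = K * Real.exp (ε * a / 4) := by
          rw [mul_pow, ← Real.exp_nat_mul, hK]
          congr 2
          push_cast; ring
  have h2 : Real.exp (ε * a / 4) * Real.exp (240 * θ * a) ≤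
      Real.exp (-(c * a)) * Real.exp (ε * a) := by
    rw [← Real.exp_add, ← Real.exp_add]
    apply Real.exp_le_exp.mpr
    have h4 : c * a ≤ ε / 2 * a := by gcongr
    have h5 : θ * a ≤ ε / 1000 * a := by gcongr
    nlinarith
  calc (30 * r - 0) * (2 * (30 * r)) *
      (C2 * W * (1 + 120 * a) ^ 20 * Real.exp (240 * θ * a))
      ≤ (30 * r - 0) * (2 * (30 * r)) *
        (C2 * W * (K * Real.exp (ε * a / 4)) * Real.exp (240 * θ * a)) := by
        have : 0 ≤ (30 * r - 0) * (2 * (30 * r)) := by rw [sub_zero]; positivity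
        gcongr
    _ = 1800 * C2 * K * W * r ^ 2 * (Real.exp (ε * a / 4) * Real.exp (240 * θ * a)) := by ring
    _ ≤ 1800 * C2 * K * W * r ^ 2 * (Real.exp (-(c * a)) * Real.exp (ε * a)) := by gcongr
    _ = _ := by ring

theorem c1 (hSYM : S_SYM) (h1 : S_MV1) (h2 : S_MV2) : S_C1 := by
  intro η ε hη hε
  set θ := min (1 / 200 : ℝ) (ε / 1000) with hθ
  have hθ0 : 0 < θ := by positivity
  have hθ1 : θ ≤ 1 / 200 := min_le_left _ _
  have hθ2 : θ ≤ ε / 1000 := min_le_right _ _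
  obtain ⟨C1, T1, hC1, hT1, H1⟩ := h1 θ hθ0 hθ1
  obtain ⟨C2, T2, hC2, hT2, H2⟩ := h2 θ hθ0 hθ1
  set K := (1 + 9600 / ε) ^ 20 with hK
  have hK0 : 0 < K := by positivity
  refine ⟨θ, min (θ / 2000) (ε / 2), 1800 * C1 / η + 1800 * C2 * K, 1, max T1 T2, hθ0, hθ1,
    by positivity, by positivity, le_rfl, hT1.trans (le_max_left _ _), ?_⟩
  intro Q a t0 hT ha haT ht0
  set c := min (θ / 2000) (ε / 2) with hc
  have hTT1 : T1 ≤ Q := (le_max_left _ _).trans hT
  have hTT2 : T2 ≤ Q := (le_max_right _ _).trans hT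
  have hT2' : (2 : ℝ) ≤ Q := hT1.trans hTT1
  have hT0 : (0 : ℝ) < Q := by linarith
  have hL : 200 ≤ Real.log Q := by linarith
  have hL0 : 0 < Real.log Q := by linarith
  set r := ra Q a with hr
  have hr_eq : r * Real.log Q = 2 * a := by
    rw [hr]; unfold ra; field_simp
  have hr0 : 0 < r := by rw [hr]; unfold ra; positivity
  have hr1 : r ≤ 1 / 100 := by
    rw [hr]; unfold ra
    rw [div_le_iff₀ (by positivity)]; linarith
  -- the height
  have hpow : 2 + (Q : ℝ) ^ (1 / 30 : ℝ) ≤ (Q : ℝ) ^ (1 / 20 : ℝ) := by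
    have e1 : (Q : ℝ) ^ (1 / 20 : ℝ) = (Q : ℝ) ^ (1 / 60 : ℝ) * (Q : ℝ) ^ (1 / 30 : ℝ) := by
      rw [← Real.rpow_add hT0]; norm_num
    have e2 : (3 : ℝ) ≤ (Q : ℝ) ^ (1 / 60 : ℝ) := by
      rw [Real.rpow_def_of_pos hT0]
      have := Real.add_one_le_exp (Real.log Q * (1 / 60))
      linarith
    have e3 : (1 : ℝ) ≤ (Q : ℝ) ^ (1 / 30 : ℝ) := Real.one_le_rpow (by linarith) (by norm_num)
    rw [e1]
    nlinarith
  have hs : ∀ x y : ℝ, 0 ≤ x → x ≤ 3 / 10 → |y| ≤ 3 / 10 →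
      ‖(1 / 2 + x + (t0 + y) * Complex.I : ℂ)‖ ≤ (Q : ℝ) ^ (1 / 20 : ℝ) := by
    intro x y hx0 hx1 hy
    have e : (1 / 2 + x + (t0 + y) * Complex.I : ℂ) =
        ((1 / 2 + x : ℝ) : ℂ) + ((t0 + y : ℝ) : ℂ) * Complex.I := by push_cast; ring
    rw [e]
    calc ‖((1 / 2 + x : ℝ) : ℂ) + ((t0 + y : ℝ) : ℂ) * Complex.I‖
        ≤ ‖((1 / 2 + x : ℝ) : ℂ)‖ + ‖((t0 + y : ℝ) : ℂ) * Complex.I‖ := norm_add_le _ _
      _ = |1 / 2 + x| + |t0 + y| := by
          rw [norm_mul, Complex.norm_I, mul_one, Complex.norm_real, Complex.norm_real,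
            Real.norm_eq_abs, Real.norm_eq_abs]
      _ ≤ 1 + (|t0| + |y|) := by
          gcongr
          · rw [abs_le]; constructor <;> linarith
          · exact abs_add_le _ _
      _ ≤ 2 + (Q : ℝ) ^ (1 / 30 : ℝ) := by linarith
      _ ≤ _ := hpow
  have hmem : ∀ p ∈ (Icc 2 Q).sigma PC, 2 ≤ p.1 ∧ p.2 ∈ PC p.1 := by
    intro p hp
    rw [Finset.mem_sigma, Finset.mem_Icc] at hp
    exact ⟨hp.1.1, hp.2⟩
  have hcLF : ∀ p ∈ (Icc 2 Q).sigma PC, Continuous (LF p.1 p.2) := fun p hp =>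
    (hSYM p.1 (hmem p hp).1 p.2 (hmem p hp).2).2.1.continuous
  classical
  -- first condition
  have B1 : ∑ p ∈ (Icc 2 Q).sigma PC, (if η * r ^ 2 < ∫ x in (r / 4000)..(30 * r),
      ∫ y in (-(30 * r))..(30 * r),
      ‖LF p.1 p.2 (1 / 2 + x + (t0 + y) * Complex.I) *
        MX θ Q p.1 p.2 (1 / 2 + x + (t0 + y) * Complex.I) - 1‖ ^ 2 then (1 : ℝ) else 0) ≤
      (30 * r - r / 4000) * (2 * (30 * r)) * (C1 * (Q : ℝ) ^ 2 * Real.exp (-(θ * a / 2000))) /
        (η * r ^ 2) := by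
    apply markov_fin ((Icc 2 Q).sigma PC) (fun p x y => ‖LF p.1 p.2 (1 / 2 + x + (t0 + y) * Complex.I) *
        MX θ Q p.1 p.2 (1 / 2 + x + (t0 + y) * Complex.I) - 1‖ ^ 2)
    · intro p hp
      have hl : Continuous fun w : ℝ × ℝ => (1 / 2 + (w.1 : ℂ) + ((t0 : ℂ) + (w.2 : ℂ)) * Complex.I) := by
        fun_prop
      exact ((((hcLF p hp).comp hl).mul ((cont_MX θ Q p.1 p.2).comp hl)).sub continuous_const).norm.pow 2
    · intro p hp x y
      positivity
    · linarith
    · positivity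
    · positivity
    · intro x hx y hy
      have hx0 : 0 < x := by linarith [hx.1]
      have hx1 : x ≤ 3 / 10 := by linarith [hx.2]
      have hy1 : |y| ≤ 3 / 10 := by
        rw [abs_le]; constructor <;> linarith [hy.1, hy.2]
      have hre : (1 / 2 + x + (t0 + y) * Complex.I : ℂ).re = 1 / 2 + x := by
        simp
      have hb := H1 Q hTT1 (1 / 2 + x + (t0 + y) * Complex.I) (by rw [hre]; linarith)
        (by rw [hre]; linarith) (hs x y hx0.le hx1 hy1)
      rw [FS_sigma, hre] at hb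
      refine hb.trans ?_
      gcongr
      have e1 : θ * a / 2000 = θ * (r / 4000 * Real.log Q) := by
        have : r / 4000 * Real.log Q = 2 * a / 4000 := by rw [← hr_eq]; ring
        rw [this]; ring
      have e2 : (1 / 2 + x - 1 / 2 : ℝ) = x := by ring
      rw [e1, e2, mul_assoc]
      have := hx.1
      gcongr
  -- second condition
  have B2 : ∑ p ∈ (Icc 2 Q).sigma PC, (if Real.exp (ε * a) * r ^ 2 < ∫ x in (0 : ℝ)..(30 * r),
      ∫ y in (-(30 * r))..(30 * r),
      ‖LF p.1 p.2 (1 / 2 + x + (t0 + y) * Complex.I) *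
        MX θ Q p.1 p.2 (1 / 2 + r + t0 * Complex.I)‖ ^ 2 then (1 : ℝ) else 0) ≤
      (30 * r - 0) * (2 * (30 * r)) *
        (C2 * (Q : ℝ) ^ 2 * (1 + 120 * a) ^ 20 * Real.exp (240 * θ * a)) /
        (Real.exp (ε * a) * r ^ 2) := by
    apply markov_fin ((Icc 2 Q).sigma PC) (fun p x y => ‖LF p.1 p.2 (1 / 2 + x + (t0 + y) * Complex.I) *
        MX θ Q p.1 p.2 (1 / 2 + r + t0 * Complex.I)‖ ^ 2)
    · intro p hp
      have hl : Continuous fun w : ℝ × ℝ => (1 / 2 + (w.1 : ℂ) + ((t0 : ℂ) + (w.2 : ℂ)) * Complex.I) := by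
        fun_prop
      exact (((hcLF p hp).comp hl).mul continuous_const).norm.pow 2
    · intro p hp x y
      positivity
    · linarith
    · positivity
    · positivity
    · intro x hx y hy
      have hx0 : 0 ≤ x := hx.1
      have hx1 : x ≤ 3 / 10 := by linarith [hx.2]
      have hy1 : |y| ≤ 3 / 10 := by
        rw [abs_le]; constructor <;> linarith [hy.1, hy.2]
      set β : ℂ := ((r - x : ℝ) : ℂ) - (y : ℂ) * Complex.I with hβ
      have hβn : ‖β‖ ≤ 60 * r := by
        calc ‖β‖ ≤ ‖((r - x : ℝ) : ℂ)‖ + ‖(y : ℂ) * Complex.I‖ := norm_sub_le _ _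
          _ = |r - x| + |y| := by
              rw [norm_mul, Complex.norm_I, mul_one, Complex.norm_real, Complex.norm_real,
                Real.norm_eq_abs, Real.norm_eq_abs]
          _ ≤ 30 * r + 30 * r := by
              gcongr
              · rw [abs_le]; constructor <;> linarith [hx.2]
              · rw [abs_le]; constructor <;> linarith [hy.1, hy.2]
          _ = 60 * r := by ring
      have hre : (1 / 2 + x + (t0 + y) * Complex.I : ℂ).re = 1 / 2 + x := by
        simp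
      have hb := H2 Q hTT2 (1 / 2 + x + (t0 + y) * Complex.I) β (by rw [hre]; linarith)
        (by rw [hre]; linarith) (by linarith) (hs x y hx0 hx1 hy1)
      have hLβ : Real.log Q * ‖β‖ ≤ 120 * a := by
        calc Real.log Q * ‖β‖ ≤ Real.log Q * (60 * r) := by gcongr
          _ = 60 * (r * Real.log Q) := by ring
          _ = 120 * a := by rw [hr_eq]; ring
      have e2 : (1 / 2 + x + (t0 + y) * Complex.I + β : ℂ) = 1 / 2 + r + t0 * Complex.I := by
        rw [hβ]; push_cast; ring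
      rw [FS_sigma, e2] at hb
      refine hb.trans ?_
      have hβ0 : 0 ≤ Real.log Q * ‖β‖ := by positivity
      have e1 : 2 * θ * Real.log Q * ‖β‖ ≤ 240 * θ * a := by
        calc 2 * θ * Real.log Q * ‖β‖ = 2 * θ * (Real.log Q * ‖β‖) := by ring
          _ ≤ 2 * θ * (120 * a) := by gcongr
          _ = 240 * θ * a := by ring
      gcongr
  have hsub : cnt Q (fun q χ => ¬ Gd θ η ε Q a t0 q χ) ≤
      ∑ p ∈ (Icc 2 Q).sigma PC, (if η * r ^ 2 < ∫ x in (r / 4000)..(30 * r),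
      ∫ y in (-(30 * r))..(30 * r),
      ‖LF p.1 p.2 (1 / 2 + x + (t0 + y) * Complex.I) *
        MX θ Q p.1 p.2 (1 / 2 + x + (t0 + y) * Complex.I) - 1‖ ^ 2 then (1 : ℝ) else 0) +
      ∑ p ∈ (Icc 2 Q).sigma PC, (if Real.exp (ε * a) * r ^ 2 < ∫ x in (0 : ℝ)..(30 * r),
      ∫ y in (-(30 * r))..(30 * r),
      ‖LF p.1 p.2 (1 / 2 + x + (t0 + y) * Complex.I) *
        MX θ Q p.1 p.2 (1 / 2 + r + t0 * Complex.I)‖ ^ 2 then (1 : ℝ) else 0) := by
    unfold cnt
    rw [FS_sigma, ← Finset.sum_add_distrib]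
    refine Finset.sum_le_sum fun p hp => ?_
    by_cases hg : ¬ Gd θ η ε Q a t0 p.1 p.2
    · rw [if_pos hg]
      unfold Gd at hg
      rw [not_and_or, not_le, not_le] at hg
      rcases hg with hg | hg
      · rw [if_pos hg]
        have : (0 : ℝ) ≤ (if Real.exp (ε * a) * r ^ 2 < ∫ x in (0 : ℝ)..(30 * r),
          ∫ y in (-(30 * r))..(30 * r),
          ‖LF p.1 p.2 (1 / 2 + x + (t0 + y) * Complex.I) *
            MX θ Q p.1 p.2 (1 / 2 + r + t0 * Complex.I)‖ ^ 2 then (1 : ℝ) else 0) := by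
          split_ifs <;> norm_num
        linarith
      · rw [if_pos hg]
        have : (0 : ℝ) ≤ (if η * r ^ 2 < ∫ x in (r / 4000)..(30 * r),
          ∫ y in (-(30 * r))..(30 * r),
          ‖LF p.1 p.2 (1 / 2 + x + (t0 + y) * Complex.I) *
            MX θ Q p.1 p.2 (1 / 2 + x + (t0 + y) * Complex.I) - 1‖ ^ 2 then (1 : ℝ) else 0) := by
          split_ifs <;> norm_num
        linarith
    · rw [if_neg hg]
      apply add_nonneg <;> split_ifs <;> norm_num
  refine hsub.trans ((add_le_add B1 B2).trans ?_)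
  have E1 := est1 η θ c C1 ((Q : ℝ) ^ 2) r a hη hC1 (by positivity) hr0 (by linarith) (min_le_left _ _)
  have E2 := est2 ε θ c C2 ((Q : ℝ) ^ 2) r a hε hθ2 hC2 (by positivity) hr0 (by linarith) (min_le_right _ _)
  rw [← hK] at E2
  calc _ ≤ 1800 * C1 / η * (Q : ℝ) ^ 2 * Real.exp (-(c * a)) +
        1800 * C2 * K * (Q : ℝ) ^ 2 * Real.exp (-(c * a)) := add_le_add E1 E2
    _ = _ := by ring

end Pool.Agent.W567.AF
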